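import Pool.Agent.K1H35.SH.Stm2

/-!
Task SQ-SPA: the sparse theorem from its pieces (union bound).
-/

namespace Pool.Agent.K1H29.SQ

open Finset Pool.Agent.K1H35.SH

theorem cnt_mono {n d : ℕ} {P Q : SimpleGraph (Fin n) → Prop}
    (h : ∀ G ∈ reg n d, P G → Q G) : cnt n d P ≤ cnt n d Q := by
  classical
  unfold cnt
  apply Finset.card_le_card
  intro G hG
  rw [Finset.mem_filter] at hG ⊢
  exact ⟨hG.1, h G hG.1 hG.2⟩

theorem cnt_or {n d : ℕ} (P Q : SimpleGraph (Fin n) → Prop) :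
    cnt n d (fun G => P G ∨ Q G) ≤ cnt n d P + cnt n d Q := by
  classical
  unfold cnt
  refine le_trans (Finset.card_le_card ?_) (Finset.card_union_le _ _)
  intro G hG
  obtain ⟨hG1, hG2⟩ := @Finset.mem_filter _ _ (fun _ => Classical.propDecidable _) _ _ |>.1 hG
  rw [Finset.mem_union, Finset.mem_filter, Finset.mem_filter]
  rcases hG2 with h | h
  · exact Or.inl ⟨hG1, h⟩
  · exact Or.inr ⟨hG1, h⟩

theorem cnt_false {n d : ℕ} {P : SimpleGraph (Fin n) → Prop} (h : ∀ G, ¬ P G) :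
    cnt n d P = 0 := by
  classical
  unfold cnt
  rw [Finset.card_eq_zero, Finset.filter_eq_empty_iff]
  intro G _
  exact h G

theorem cnt_exists {n d N R : ℕ} (P : ℕ → SimpleGraph (Fin n) → Prop) (km : ℕ)
    (h : ∀ k, 1 ≤ k → k ≤ km → cnt n d (P k) * N ≤ R) :
    cnt n d (fun G => ∃ k, 1 ≤ k ∧ k ≤ km ∧ P k G) * N ≤ km * R := by
  induction km with
  | zero =>
    rw [cnt_false (P := fun G => ∃ k, 1 ≤ k ∧ k ≤ 0 ∧ P k G)]
    · simp
    · rintro G ⟨k, h1, h2, _⟩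
      omega
  | succ km ih =>
    have h1 := ih (fun k hk1 hk2 => h k hk1 (by omega))
    have h2 := h (km + 1) (by omega) le_rfl
    have h3 : cnt n d (fun G => ∃ k, 1 ≤ k ∧ k ≤ km + 1 ∧ P k G) ≤
        cnt n d (fun G => ∃ k, 1 ≤ k ∧ k ≤ km ∧ P k G) + cnt n d (P (km + 1)) := by
      refine le_trans (cnt_mono ?_) (cnt_or _ _)
      rintro G _ ⟨k, hk1, hk2, hk3⟩
      rcases Nat.lt_or_ge km k with hlt | hle
      · right
        have : k = km + 1 := by omega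
        rw [← this]
        exact hk3
      · left
        exact ⟨k, hk1, hle, hk3⟩
    calc cnt n d (fun G => ∃ k, 1 ≤ k ∧ k ≤ km + 1 ∧ P k G) * N
        ≤ (cnt n d (fun G => ∃ k, 1 ≤ k ∧ k ≤ km ∧ P k G) + cnt n d (P (km + 1))) * N :=
          Nat.mul_le_mul_right N h3
      _ = cnt n d (fun G => ∃ k, 1 ≤ k ∧ k ≤ km ∧ P k G) * N + cnt n d (P (km + 1)) * N := by
          rw [Nat.add_mul]
      _ ≤ km * R + R := Nat.add_le_add h1 h2
      _ = (km + 1) * R := by rw [Nat.add_mul, Nat.one_mul]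

theorem t_SPARSE (hQTB : S_QTB) (hUPB : S_UPB) (hQDB : S_QDB) (hQLB : S_QLB) (hQE : S_QE)
    (hQGB : S_QGB) (hQPB : S_QPB) (hRIG : S_RIG) (hRTW : S_RTW) (hNUM : S_NUM2) : S_SPARSE := by
  intro n d L hnL hLn hL1 hdn hdn2
  obtain ⟨h, t, t0, M, B, c, c2, Dm, K, μ, km, b, k0, p1, p2, p3, p4, p5, p6, p7, p8, p9, p10,
    p11, p12, p13, p14, p15, p16, p17, p18, p19, p20, p21, p22, p23, p24, p25⟩ :=
    hNUM n d L hnL hLn hL1 hdn hdn2
  have hd64 : 64 ≤ d := by omega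
  have h64n : 64 * d ≤ n := by omega
  have h4n : 4 * d ≤ n := by omega
  have hn7 : 7 ≤ n := by omega
  have hn3 : 3 ≤ n := by omega
  have hd1 : 1 ≤ d := by omega
  -- condition of QLB
  have hQLc : 100 * L * n ≤ d ^ 2 := by
    refine le_trans ?_ hdn
    apply Nat.mul_le_mul_right
    have e1 : L ≤ L ^ 4 := Nat.le_self_pow (by norm_num) L
    have e2 : 100 ≤ 2 ^ 200 := by norm_num
    exact Nat.mul_le_mul e2 e1
  -- the seven events
  have a1 := hQTB n d t L hnL hL1 h64n p1 p6 p7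
  have a2 := hUPB n d t0 (6 * L) h4n hd64 p8
  have a3 := hQDB n d h t L hnL hL1 h64n hd64 p5 p10
  have a4 := hQLB n d L hnL hL1 h64n hd64 hQLc
  have a5 := hQGB n d (2 * c2) Dm L hnL hL1 h64n hd64 p15
  have a6 := hQPB n d K μ L hnL hL1 h64n hd64 p16
  have a7 := cnt_exists (n := n) (d := d) (N := n ^ 3) (R := (reg n d).card)
    (fun k G => (∀ u v, u ≠ v → codeg G u v ≤ M) ∧ QL d G ∧ Heavy d h k G) km
    (fun k hk1 hk2 => hQE n d h k M k0 km L hnL hL1 h64n hd64 hk1 hk2 p11 p12 p13 p14)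
  set R := (reg n d).card with hR
  have key : cnt n d (fun G => ¬ Recon G) ≤
      cnt n d (fun G => ¬ QT t G) +
      (cnt n d (fun G => ∃ u v, u ≠ v ∧ t0 + 6 * L ≤ codeg G u v) +
      (cnt n d (fun G => ¬ QD h t G) +
      (cnt n d (fun G => ¬ QL d G) +
      (cnt n d (fun G => ¬ QG d (2 * c2) Dm G) +
      (cnt n d (fun G => ¬ QP K μ G) +
      cnt n d (fun G => ∃ k, 1 ≤ k ∧ k ≤ km ∧
        ((∀ u v, u ≠ v → codeg G u v ≤ M) ∧ QL d G ∧ Heavy d h k G))))))) := by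
    refine le_trans ?_ (Nat.add_le_add_left (Nat.add_le_add_left (Nat.add_le_add_left
      (Nat.add_le_add_left (Nat.add_le_add_left (cnt_or _ _) _) _) _) _) _)
    refine le_trans ?_ (Nat.add_le_add_left (Nat.add_le_add_left (Nat.add_le_add_left
      (Nat.add_le_add_left (cnt_or _ _) _) _) _) _)
    refine le_trans ?_ (Nat.add_le_add_left (Nat.add_le_add_left (Nat.add_le_add_left
      (cnt_or _ _) _) _) _)
    refine le_trans ?_ (Nat.add_le_add_left (Nat.add_le_add_left (cnt_or _ _) _) _)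
    refine le_trans ?_ (Nat.add_le_add_left (cnt_or _ _) _)
    refine le_trans ?_ (cnt_or _ _)
    apply cnt_mono
    intro G hG hnR
    by_contra hcon
    simp only [not_or, not_not] at hcon
    obtain ⟨q1, q2, q3, q4, q5, q6, q7⟩ := hcon
    have hM : ∀ u v, u ≠ v → codeg G u v ≤ M := by
      intro u v huv
      by_contra hlt
      exact q2 ⟨u, v, huv, by omega⟩
    apply hnR
    apply hRTW n G
    apply hRIG n d h L t M B c c2 Dm K μ km b G hnL hL1 p2 p3 hd1 p4 hG q1 hM q3 q5 q6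
      (fun k hk1 hk2 hH => q7 ⟨k, hk1, hk2, hM, q4, hH⟩) hn3 p17 p18 p19 p20 p21 p22 p23 p24
  -- numerics
  have hn0 : 0 < n := by omega
  have b2 : cnt n d (fun G => ∃ u v, u ≠ v ∧ t0 + 6 * L ≤ codeg G u v) * n ^ 2 ≤ R := by
    have e1 : n ^ 6 ≤ 2 ^ (6 * L) := by
      calc n ^ 6 ≤ (2 ^ L) ^ 6 := Nat.pow_le_pow_left hnL 6
        _ = 2 ^ (6 * L) := by rw [← pow_mul, mul_comm]
    have e2 : cnt n d (fun G => ∃ u v, u ≠ v ∧ t0 + 6 * L ≤ codeg G u v) * n ^ 6 ≤ n ^ 3 * R :=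
      le_trans (Nat.mul_le_mul_left _ e1) a2
    have e3 : n ^ 3 * (cnt n d (fun G => ∃ u v, u ≠ v ∧ t0 + 6 * L ≤ codeg G u v) * n ^ 3) ≤
        n ^ 3 * R := by
      calc _ = cnt n d (fun G => ∃ u v, u ≠ v ∧ t0 + 6 * L ≤ codeg G u v) * n ^ 6 := by ring
        _ ≤ _ := e2
    have e4 := Nat.le_of_mul_le_mul_left e3 (by positivity)
    refine le_trans (Nat.mul_le_mul_left _ ?_) e4
    exact Nat.pow_le_pow_right hn0 (by norm_num)
  have b7 : cnt n d (fun G => ∃ k, 1 ≤ k ∧ k ≤ km ∧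
        ((∀ u v, u ≠ v → codeg G u v ≤ M) ∧ QL d G ∧ Heavy d h k G)) * n ^ 2 ≤ R := by
    have e1 := le_trans a7 (Nat.mul_le_mul_right R p25)
    have e3 : n * (cnt n d (fun G => ∃ k, 1 ≤ k ∧ k ≤ km ∧
        ((∀ u v, u ≠ v → codeg G u v ≤ M) ∧ QL d G ∧ Heavy d h k G)) * n ^ 2) ≤ n * R := by
      calc _ = cnt n d (fun G => ∃ k, 1 ≤ k ∧ k ≤ km ∧
        ((∀ u v, u ≠ v → codeg G u v ≤ M) ∧ QL d G ∧ Heavy d h k G)) * n ^ 3 := by ring
        _ ≤ _ := e1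
    exact Nat.le_of_mul_le_mul_left e3 hn0
  generalize cnt n d (fun G => ¬ QT t G) = x1 at *
  generalize cnt n d (fun G => ∃ u v, u ≠ v ∧ t0 + 6 * L ≤ codeg G u v) = x2 at *
  generalize cnt n d (fun G => ¬ QD h t G) = x3 at *
  generalize cnt n d (fun G => ¬ QL d G) = x4 at *
  generalize cnt n d (fun G => ¬ QG d (2 * c2) Dm G) = x5 at *
  generalize cnt n d (fun G => ¬ QP K μ G) = x6 at *
  generalize cnt n d (fun G => ∃ k, 1 ≤ k ∧ k ≤ km ∧
        ((∀ u v, u ≠ v → codeg G u v ≤ M) ∧ QL d G ∧ Heavy d h k G)) = x7 at *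
  generalize cnt n d (fun G => ¬ Recon G) = x0 at *
  have f1 : x0 * n ^ 2 ≤ 7 * R := by
    calc x0 * n ^ 2 ≤ (x1 + (x2 + (x3 + (x4 + (x5 + (x6 + x7)))))) * n ^ 2 :=
          Nat.mul_le_mul_right _ key
      _ = x1 * n ^ 2 + (x2 * n ^ 2 + (x3 * n ^ 2 + (x4 * n ^ 2 + (x5 * n ^ 2 +
          (x6 * n ^ 2 + x7 * n ^ 2))))) := by ring
      _ ≤ 7 * R := by omega
  have f2 : 7 * (n * x0) ≤ 7 * R := by
    calc 7 * (n * x0) ≤ n * (n * x0) := Nat.mul_le_mul_right _ hn7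
      _ = x0 * n ^ 2 := by ring
      _ ≤ 7 * R := f1
  omega

end Pool.Agent.K1H29.SQ
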